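import Mathlib
import Pool.Agent.V11259.CeAlg

/-!
Two classes of c.e. algebras with incomparable isomorphism relations: pure sets with five
generators, and sets with three named constants and one generator.
-/

set_option autoImplicit false

open Encodable Denumerable
open V11259.RE V11259.CeAlg

namespace Pool.Agent.Results.MP_418eb4_lc.Incomparable

theorem dec_empty : ComputablePred fun f : ℕ => f ∈ (∅ : Set ℕ) := by
  have h : PrimrecPred fun x : ℕ => (0 : ℕ) = 1 :=
    Primrec.eq.comp (Primrec.const 0) (Primrec.const 1)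
  exact h.computablePred.of_eq fun x => by simp

theorem dec_three : ComputablePred fun f : ℕ => f ∈ {c : ℕ | c < 3} := by
  have h : PrimrecPred fun x : ℕ => x < 3 := Primrec.nat_lt.comp Primrec.id (Primrec.const 3)
  exact h.computablePred

/-- the variety of pure sets (no function symbols) -/
abbrev pureSets : Variety := constVar ∅ dec_empty

/-- the variety of sets with three constants -/
abbrev threeConst : Variety := constVar {c | c < 3} dec_three

theorem exists_kernel_index {v : ℕ → ℕ} (hv : Primrec v) :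
    ∃ e, ∀ a b, Nat.pair a b ∈ W e ↔ v a = v b := by
  have h : PrimrecPred fun x : ℕ => v x.unpair.1 = v x.unpair.2 :=
    Primrec.eq.comp (hv.comp (Primrec.fst.comp Primrec.unpair))
      (hv.comp (Primrec.snd.comp Primrec.unpair))
  obtain ⟨e, he⟩ := exists_index (of_prim h)
  exact ⟨e, fun a b => by rw [he]; simp⟩

theorem cong_kernel {C : Set ℕ} {hC : ComputablePred fun f => f ∈ C} {n : ℕ} {v : ℕ → ℕ}
    {A : Set ℕ} (hA : ∀ a b, Nat.pair a b ∈ A ↔ v a = v b)
    {s t : Term (constVar C hC).sig (Fin n)} :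
    Cong (constVar C hC) (relOf A) s t ↔ v (cd s) = v (cd t) := by
  constructor
  · intro h
    exact cong_sound (fun t => v (cd t)) (fun s t hst => (hA _ _).1 hst) h
  · intro h
    exact Cong.rel ((hA _ _).2 h)

/-! ### Pure sets -/

theorem pure_surj (A : Set ℕ) : Function.Surjective fun i : Fin 5 =>
    (cls (V := pureSets) (relOf A) (.var i) : (algOf pureSets 5 A).carrier) := by
  intro a
  obtain ⟨t, rfl⟩ := cls_surj a
  refine term_cases (p := fun t => ∃ i : Fin 5, cls (V := pureSets) (relOf A) (.var i) =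
    cls (relOf A) t) ?_ ?_ t
  · intro i; exact ⟨i, rfl⟩
  · intro c hc; exact absurd hc (Set.notMem_empty _)

theorem pure_finite (A : Set ℕ) : Finite (algOf pureSets 5 A).carrier :=
  Finite.of_surjective _ (pure_surj A)

theorem pure_card_le (A : Set ℕ) : Nat.card (algOf pureSets 5 A).carrier ≤ 5 := by
  exact (Nat.card_le_card_of_surjective _ (pure_surj A)).trans (by simp)

theorem pure_card_pos (A : Set ℕ) : 0 < Nat.card (algOf pureSets 5 A).carrier := by
  have := pure_finite A
  have : Nonempty (algOf pureSets 5 A).carrier := ⟨cls (V := pureSets) (relOf A) (.var 0)⟩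
  exact Nat.card_pos

theorem pure_iso {A B : Set ℕ}
    (h : Nat.card (algOf pureSets 5 A).carrier = Nat.card (algOf pureSets 5 B).carrier) :
    (algOf pureSets 5 A).Iso (algOf pureSets 5 B) := by
  have := pure_finite A
  have := pure_finite B
  obtain ⟨φ⟩ := Finite.card_eq.1 h
  exact ⟨φ, fun f hf => absurd hf (Set.notMem_empty _)⟩

theorem iso_card {σ : Signature} {A B : Alg σ} (h : A.Iso B) :
    Nat.card A.carrier = Nat.card B.carrier := by
  obtain ⟨φ, -⟩ := h
  exact Nat.card_congr φ

/-- the relations giving a set with `5 - k` elements -/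
def rels (k : ℕ) : Set ℕ := {x | min (x.unpair.1 / 2) (4 - k) = min (x.unpair.2 / 2) (4 - k)}

theorem rels_mono (k : ℕ) : rels k ⊆ rels (k + 1) := by
  intro x hx
  simp only [rels, Set.mem_ofPred_eq] at *
  omega

theorem rels_re (k : ℕ) : REPred fun x => x ∈ rels k := by
  have h : PrimrecPred fun x : ℕ =>
      min (x.unpair.1 / 2) (4 - k) = min (x.unpair.2 / 2) (4 - k) :=
    Primrec.eq.comp
      (Primrec.nat_min.comp (Primrec.nat_div.comp (Primrec.fst.comp Primrec.unpair)
        (Primrec.const 2)) (Primrec.const _))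
      (Primrec.nat_min.comp (Primrec.nat_div.comp (Primrec.snd.comp Primrec.unpair)
        (Primrec.const 2)) (Primrec.const _))
  exact of_prim h

theorem rels_card (k : ℕ) (hk : k ≤ 4) :
    Nat.card (algOf pureSets 5 (rels k)).carrier = 5 - k := by
  have hA : ∀ a b, Nat.pair a b ∈ rels k ↔ min (a / 2) (4 - k) = min (b / 2) (4 - k) := by
    intro a b; simp [rels]
  have hker : ∀ s t : Term pureSets.sig (Fin 5), Cong pureSets (relOf (rels k)) s t ↔
      min (cd s / 2) (4 - k) = min (cd t / 2) (4 - k) := fun s t =>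
    cong_kernel (v := fun x => min (x / 2) (4 - k)) hA
  have hψ : ∃ ψ : (algOf pureSets 5 (rels k)).carrier → ℕ,
      ∀ t, ψ (cls (relOf (rels k)) t) = min (cd t / 2) (4 - k) :=
    ⟨Quotient.lift (fun t => min (cd t / 2) (4 - k)) fun s t hst => (hker s t).1 hst,
      fun t => rfl⟩
  obtain ⟨ψ, hψ⟩ := hψ
  have hinj : Function.Injective ψ := by
    intro a b hab
    obtain ⟨s, rfl⟩ := cls_surj a
    obtain ⟨t, rfl⟩ := cls_surj b
    exact cls_eq.2 ((hker s t).2 (by rw [← hψ, ← hψ]; exact hab))
  have hrange : Set.range ψ = (Finset.range (5 - k) : Set ℕ) := by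
    ext m
    constructor
    · rintro ⟨a, rfl⟩
      obtain ⟨i, rfl⟩ := pure_surj _ a
      simp only [Finset.coe_range, Set.mem_Iio]
      show ψ (cls _ _) < _
      rw [hψ]
      omega
    · intro hm
      simp only [Finset.coe_range, Set.mem_Iio] at hm
      refine ⟨cls _ (.var ⟨m, by omega⟩), ?_⟩
      rw [hψ, cd_var]
      show min (2 * m / 2) _ = m
      omega
  have h1 := Nat.card_range_of_injective hinj
  rw [← h1, hrange]
  simp

/-! ### Three constants -/

abbrev T3 := Term threeConst.sig (Fin 1)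

theorem three_surj (A : Set ℕ) : Function.Surjective fun i : Fin 4 =>
    ((if h : (i : ℕ) < 3 then cls (V := threeConst) (relOf A) (cst (n := 1) i h)
      else cls (V := threeConst) (relOf A) (.var (0 : Fin 1))) :
        (algOf threeConst 1 A).carrier) := by
  intro a
  obtain ⟨t, rfl⟩ := cls_surj a
  refine term_cases (p := fun t => ∃ i : Fin 4, ((if h : (i : ℕ) < 3 then
      cls (V := threeConst) (relOf A) (cst (n := 1) i h)
      else cls (V := threeConst) (relOf A) (.var (0 : Fin 1)))) = cls (relOf A) t) ?_ ?_ t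
  · intro i
    refine ⟨3, ?_⟩
    have : i = 0 := Subsingleton.elim _ _
    subst this
    simp
  · intro c hc
    have hc' : c < 3 := hc
    refine ⟨⟨c, by omega⟩, ?_⟩
    simp [hc']

theorem three_finite (A : Set ℕ) : Finite (algOf threeConst 1 A).carrier :=
  Finite.of_surjective _ (three_surj A)

theorem three_card_le (A : Set ℕ) : Nat.card (algOf threeConst 1 A).carrier ≤ 4 := by
  exact (Nat.card_le_card_of_surjective _ (three_surj A)).trans (by simp)

theorem three_card_pos (A : Set ℕ) : 0 < Nat.card (algOf threeConst 1 A).carrier := by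
  have := three_finite A
  have : Nonempty (algOf threeConst 1 A).carrier :=
    ⟨cls (V := threeConst) (relOf A) (.var 0)⟩
  exact Nat.card_pos

/-- codes of terms -/
def codes : Finset ℕ := {0, 1, 5, 13}

theorem cd_mem (t : T3) : cd t ∈ codes := by
  refine term_cases (p := fun t => cd t ∈ codes) ?_ ?_ t
  · intro i
    rw [cd_var]
    have : i = 0 := Subsingleton.elim _ _
    subst this
    decide
  · intro c hc
    have hc' : c < 3 := hc
    rw [cd_cst]
    interval_cases c <;> decide

/-- codes of equations -/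
def eqs : Finset ℕ := (codes ×ˢ codes).image fun q => Nat.pair q.1 q.2

theorem relOf_inter (A : Set ℕ) (s t : T3) :
    relOf A s t ↔ relOf (A ∩ (eqs : Set ℕ)) s t := by
  have h : Nat.pair (cd s) (cd t) ∈ (eqs : Set ℕ) := by
    simp only [eqs, Finset.coe_image, Set.mem_image]
    exact ⟨(cd s, cd t), by simp [cd_mem], rfl⟩
  constructor
  · intro h1; exact ⟨h1, h⟩
  · intro h1; exact h1.1

theorem three_inter (A : Set ℕ) :
    (algOf threeConst 1 A).Iso (algOf threeConst 1 (A ∩ (eqs : Set ℕ))) :=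
  iso_of_cong (fun s t h => Cong.rel ((relOf_inter A s t).1 h))
    (fun s t h => Cong.rel ((relOf_inter A s t).2 h))

/-- the key step: a reduction forces a strictly smaller algebra -/
theorem step {h : ℕ → ℕ} (hh : Computable h)
    (hred : ∀ x y, isoRel pureSets 5 x y ↔ isoRel threeConst 1 (h x) (h y))
    {k : ℕ} (hk : k < 4) {e : ℕ} (he : W e = rels k) :
    ∃ e', W e' = rels (k + 1) ∧
      Nat.card (alg threeConst 1 (h e')).carrier < Nat.card (alg threeConst 1 (h e)).carrier := by
  classical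
  set F : Finset (Finset ℕ) := eqs.powerset.filter fun S =>
    (algOf threeConst 1 (S : Set ℕ)).Iso (alg threeConst 1 (h e)) with hF
  set T : ℕ → Prop := fun i => ∃ S ∈ F, ∀ s ∈ S, s ∈ W (h i) with hT
  have hTre : REPred T := by
    refine exists_finset fun S _ => forall_finset fun s _ => ?_
    exact comp re_W (f := fun i => (h i, s)) (Computable.pair hh (Computable.const s))
  obtain ⟨e', he'⟩ := exists_fix (p := fun q : ℕ × ℕ => q.2 ∈ rels k ∨
    (q.2 ∈ rels (k + 1) ∧ T q.1)) (or (comp (rels_re k) Computable.snd)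
      (and (comp (rels_re (k + 1)) Computable.snd) (comp hTre Computable.fst)))
  have hTe : T e' := by
    by_contra hn
    have h1 : W e' = rels k := by
      ext x; rw [he']; simp [hn]
    have h2 : isoRel pureSets 5 e' e := by
      show (algOf _ _ (W e')).Iso (algOf _ _ (W e))
      rw [h1, he]; exact Alg.Iso.refl _
    have h3 := (hred _ _).1 h2
    apply hn
    have hfin : (W (h e') ∩ (eqs : Set ℕ)).Finite := Set.Finite.inter_of_right
      (Finset.finite_toSet _) _
    have hcoe : ((hfin.toFinset : Finset ℕ) : Set ℕ) = W (h e') ∩ (eqs : Set ℕ) :=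
      hfin.coe_toFinset
    refine ⟨hfin.toFinset, ?_, fun s hs => ?_⟩
    · rw [hF, Finset.mem_filter, Finset.mem_powerset]
      refine ⟨fun s hs => ?_, ?_⟩
      · rw [Set.Finite.mem_toFinset] at hs
        exact Finset.mem_coe.1 hs.2
      · rw [hcoe]
        exact (three_inter _).symm.trans h3
    · rw [Set.Finite.mem_toFinset] at hs
      exact hs.1
  have hW : W e' = rels (k + 1) := by
    ext x
    rw [he']
    constructor
    · rintro (hx | hx)
      · exact rels_mono k hx
      · exact hx.1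
    · intro hx; exact Or.inr ⟨hx, hTe⟩
  refine ⟨e', hW, ?_⟩
  have hne : ¬ isoRel pureSets 5 e' e := by
    intro hiso
    have h1 := iso_card hiso
    change Nat.card (algOf _ _ (W e')).carrier = Nat.card (algOf _ _ (W e)).carrier at h1
    rw [hW, he, rels_card _ (by omega), rels_card _ (by omega)] at h1
    omega
  have hne' : ¬ isoRel threeConst 1 (h e') (h e) := fun hx => hne ((hred _ _).2 hx)
  obtain ⟨S, hSF, hS⟩ := hTe
  rw [hF, Finset.mem_filter] at hSF
  obtain ⟨φ, hφ1, -, hφ2⟩ := exists_hom (V := threeConst) (X := Fin 1)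
    (R := relOf (S : Set ℕ)) (S := relOf (W (h e')))
    (fun s t hst => Cong.rel (hS _ (Finset.mem_coe.1 hst)))
  have hcard := iso_card hSF.2
  rw [← hcard]
  have : Finite (present threeConst (X := Fin 1) (relOf (S : Set ℕ))).carrier :=
    three_finite (S : Set ℕ)
  have : Finite (algOf threeConst 1 (S : Set ℕ)).carrier := three_finite (S : Set ℕ)
  have : Finite (present threeConst (X := Fin 1) (relOf (W (h e')))).carrier :=
    three_finite (W (h e'))
  have hle : Nat.card (alg threeConst 1 (h e')).carrier ≤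
      Nat.card (algOf threeConst 1 (S : Set ℕ)).carrier :=
    Nat.card_le_card_of_surjective φ hφ1
  refine lt_of_le_of_ne hle fun heq => hne' ?_
  have hbij : Function.Bijective φ :=
    Function.Surjective.bijective_of_nat_card_le hφ1 (le_of_eq heq.symm)
  have hiso : (algOf threeConst 1 (S : Set ℕ)).Iso (alg threeConst 1 (h e')) :=
    ⟨Equiv.ofBijective φ hbij, hφ2⟩
  exact hiso.symm.trans hSF.2

theorem pure_not_le : ¬ CRed (isoRel pureSets 5) (isoRel threeConst 1) := by
  rintro ⟨h, hh, hred⟩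
  obtain ⟨e0, he0⟩ := exists_index (rels_re 0)
  have h0 : W e0 = rels 0 := by ext x; exact he0 x
  obtain ⟨e1, h1, l1⟩ := step hh hred (k := 0) (by norm_num) h0
  obtain ⟨e2, h2, l2⟩ := step hh hred (k := 1) (by norm_num) h1
  obtain ⟨e3, h3, l3⟩ := step hh hred (k := 2) (by norm_num) h2
  obtain ⟨e4, h4, l4⟩ := step hh hred (k := 3) (by norm_num) h3
  have a := three_card_le (W (h e0))
  have b := three_card_pos (W (h e4))
  change Nat.card (alg threeConst 1 (h e0)).carrier ≤ 4 at a
  change 0 < Nat.card (alg threeConst 1 (h e4)).carrier at b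
  omega

/-- valuations of the four terms -/
def val (w : Fin 4 → ℕ) (x : ℕ) : ℕ :=
  if x = 0 then w 0 else if x = 1 then w 1 else if x = 5 then w 2 else w 3

theorem val_prim (w : Fin 4 → ℕ) : Primrec (val w) := by
  unfold val
  refine Primrec.ite (Primrec.eq.comp Primrec.id (Primrec.const 0)) (Primrec.const _) ?_
  refine Primrec.ite (Primrec.eq.comp Primrec.id (Primrec.const 1)) (Primrec.const _) ?_
  exact Primrec.ite (Primrec.eq.comp Primrec.id (Primrec.const 5)) (Primrec.const _)
    (Primrec.const _)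

/-- six patterns -/
def pat : Fin 6 → Fin 4 → ℕ :=
  ![![3, 0, 1, 2], ![3, 0, 0, 2], ![3, 0, 2, 0], ![3, 2, 0, 0], ![3, 0, 0, 0], ![0, 0, 1, 2]]

theorem val_var (w : Fin 4 → ℕ) : val w (cd (.var 0 : T3)) = w 0 := by
  rw [cd_var]; rfl

theorem val_cst (w : Fin 4 → ℕ) (c : Fin 3) :
    val w (cd (cst (n := 1) (c : ℕ) c.2 : T3)) = w c.succ := by
  have h := cd_cst (C := {c | c < 3}) (n := 1) (hC := dec_three) (c : ℕ) c.2
  have h2 : cd (cst (n := 1) (c : ℕ) c.2 : T3) = 2 * Nat.pair c 0 + 1 := h
  rw [h2]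
  fin_cases c <;> rfl

theorem iso_pattern {w w' : Fin 4 → ℕ} {A B : Set ℕ}
    (hA : ∀ a b, Nat.pair a b ∈ A ↔ val w a = val w b)
    (hB : ∀ a b, Nat.pair a b ∈ B ↔ val w' a = val w' b)
    (h : (present threeConst (X := Fin 1) (relOf A)).Iso
      (present threeConst (X := Fin 1) (relOf B))) :
    (∀ c d : Fin 3, w c.succ = w d.succ ↔ w' c.succ = w' d.succ) ∧
      ((∃ c : Fin 3, w 0 = w c.succ) ↔ ∃ c : Fin 3, w' 0 = w' c.succ) := by
  obtain ⟨φ, hφ⟩ := h
  have hc : ∀ c : Fin 3, φ (cls (relOf A) (cst (n := 1) (c : ℕ) c.2 : T3)) =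
      cls (relOf B) (cst (n := 1) (c : ℕ) c.2 : T3) := fun c => iso_cst φ hφ (c : ℕ) c.2
  have kA : ∀ s t : T3, cls (relOf A) s = cls (relOf A) t ↔ val w (cd s) = val w (cd t) :=
    fun s t => cls_eq.trans (cong_kernel hA)
  have kB : ∀ s t : T3, cls (relOf B) s = cls (relOf B) t ↔ val w' (cd s) = val w' (cd t) :=
    fun s t => cls_eq.trans (cong_kernel hB)
  have hvar : ∀ t : T3, t = .var 0 ∨ ∃ c : Fin 3, t = cst (n := 1) (c : ℕ) c.2 := by
    intro t
    refine term_cases (p := fun t : T3 => t = .var 0 ∨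
      ∃ c : Fin 3, t = cst (n := 1) (c : ℕ) c.2) ?_ ?_ t
    · intro i; left; rw [Subsingleton.elim i 0]
    · intro c hc; right; exact ⟨⟨c, hc⟩, rfl⟩
  refine ⟨fun c d => ?_, ?_⟩
  · rw [← val_cst w c, ← val_cst w d, ← kA]
    have e1 : φ (cls (relOf A) (cst (n := 1) (c : ℕ) c.2 : T3)) =
        φ (cls (relOf A) (cst (n := 1) (d : ℕ) d.2 : T3)) ↔
        cls (relOf A) (cst (n := 1) (c : ℕ) c.2 : T3) =
          cls (relOf A) (cst (n := 1) (d : ℕ) d.2 : T3) := φ.injective.eq_iff
    rw [← e1, hc, hc, kB, val_cst, val_cst]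
  · have key : ∀ (w1 w2 : Fin 4 → ℕ) (A1 A2 : Set ℕ)
        (ψ : (present threeConst (X := Fin 1) (relOf A1)).carrier ≃
          (present threeConst (X := Fin 1) (relOf A2)).carrier),
        (∀ c : Fin 3, ψ (cls (relOf A1) (cst (n := 1) (c : ℕ) c.2 : T3)) =
          cls (relOf A2) (cst (n := 1) (c : ℕ) c.2 : T3)) →
        (∀ s t : T3, cls (relOf A1) s = cls (relOf A1) t ↔ val w1 (cd s) = val w1 (cd t)) →
        (∀ s t : T3, cls (relOf A2) s = cls (relOf A2) t ↔ val w2 (cd s) = val w2 (cd t)) →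
        (∃ c : Fin 3, w1 0 = w1 c.succ) → ∃ c : Fin 3, w2 0 = w2 c.succ := by
      rintro w1 w2 A1 A2 ψ h1 h2 h3 ⟨c, hc⟩
      obtain ⟨t, ht⟩ := cls_surj (ψ.symm (cls (relOf A2) (.var 0 : T3)))
      have ht' : ψ (cls (relOf A1) t) = cls (relOf A2) (.var 0 : T3) := by
        rw [ht]; exact ψ.apply_symm_apply _
      have : ∃ d : Fin 3, cls (relOf A1) t = cls (relOf A1) (cst (n := 1) (d : ℕ) d.2 : T3) := by
        rcases hvar t with rfl | ⟨d, rfl⟩
        · refine ⟨c, (h2 _ _).2 ?_⟩
          rw [val_var, val_cst]; exact hc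
        · exact ⟨d, rfl⟩
      obtain ⟨d, hd⟩ := this
      refine ⟨d, ?_⟩
      rw [hd, h1] at ht'
      have := (h3 _ _).1 ht'
      rw [val_var, val_cst] at this
      exact this.symm
    refine ⟨key w w' A B φ hc kA kB, key w' w B A φ.symm (fun c => ?_) kB kA⟩
    rw [Equiv.symm_apply_eq, hc]

theorem three_not_le : ¬ CRed (isoRel threeConst 1) (isoRel pureSets 5) := by
  rintro ⟨h, -, hred⟩
  have hidx : ∀ i : Fin 6, ∃ e, ∀ a b, Nat.pair a b ∈ W e ↔ val (pat i) a = val (pat i) b :=
    fun i => exists_kernel_index (val_prim (pat i))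
  choose e he using hidx
  have hlt : ∀ i : Fin 6, Nat.card (alg pureSets 5 (h (e i))).carrier - 1 < 5 := by
    intro i
    have := pure_card_le (W (h (e i)))
    change Nat.card (alg pureSets 5 (h (e i))).carrier ≤ 5 at this
    omega
  obtain ⟨i, j, hij, heq⟩ := Fintype.exists_ne_map_eq_of_card_lt
    (fun i : Fin 6 => (⟨_, hlt i⟩ : Fin 5)) (by simp)
  have heq' : Nat.card (alg pureSets 5 (h (e i))).carrier - 1 =
      Nat.card (alg pureSets 5 (h (e j))).carrier - 1 := congrArg Fin.val heq
  have h1 := pure_card_pos (W (h (e i)))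
  have h2 := pure_card_pos (W (h (e j)))
  change 0 < Nat.card (alg pureSets 5 (h (e i))).carrier at h1
  change 0 < Nat.card (alg pureSets 5 (h (e j))).carrier at h2
  have h3 : isoRel pureSets 5 (h (e i)) (h (e j)) := pure_iso (by
    change Nat.card (alg pureSets 5 (h (e i))).carrier =
      Nat.card (alg pureSets 5 (h (e j))).carrier
    omega)
  have h4 := iso_pattern (he i) (he j) ((hred _ _).2 h3)
  have hall : ∀ i j : Fin 6, i ≠ j →
      ¬ ((∀ c d : Fin 3, pat i c.succ = pat i d.succ ↔ pat j c.succ = pat j d.succ) ∧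
      ((∃ c : Fin 3, pat i 0 = pat i c.succ) ↔ ∃ c : Fin 3, pat j 0 = pat j c.succ)) := by
    decide
  exact hall i j hij h4

/-- There are two classes of c.e. algebras whose isomorphism relations are incomparable under
computable reducibility. -/
theorem result : ∃ (V V' : Variety) (n n' : ℕ), 1 ≤ n ∧ 1 ≤ n' ∧
    ¬ CRed (isoRel V n) (isoRel V' n') ∧ ¬ CRed (isoRel V' n') (isoRel V n) :=
  ⟨pureSets, threeConst, 5, 1, by norm_num, le_rfl, pure_not_le, three_not_le⟩

end Pool.Agent.Results.MP_418eb4_lc.Incomparable
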